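import Pool.Agent.Lib.MP_89352f_al.H60Main
import Pool.Agent.Lib.MP_89352f_al.Gauss

namespace Pool.Agent.Lib.MP_89352f_al.Variants.RankThreeAll

open Pool.Agent.Lib.MP_89352f_al

/-- For every `m ≥ 4` the group `Q(3,m)` has an element of infinite order; in particular
`Q(3,5)` is infinite. -/
theorem result (m : ℕ) (hm : 4 ≤ m) : ∃ g : Q 3 (by norm_num) m, ¬ IsOfFinOrder g := by
  rcases hm.eq_or_lt with rfl | h
  · exact Gauss.four
  · exact H60.five h

end Pool.Agent.Lib.MP_89352f_al.Variants.RankThreeAll
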